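import Pool.Agent.Helper87.MD.Goals
import Pool.Agent.Helper92.Field.Divisor

/-! Packet MD-BLB: large divisors, from the lattice lemma and the divisor bound. -/

set_option autoImplicit false

open Finset
open scoped Classical

namespace Pool.Agent.Helper44.MD

open Pool.Agent.Helper98.Lang Pool.Agent.Helper87.MD

/-- pairs with the same product -/
theorem ss_le (ξ c ε : ℝ) (s M d g R X : ℕ) (T : ℝ) (hT : 0 ≤ T) (hg : 1 ≤ g)
    (hX : X = 2 * M * R / g)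
    (hτ : ∀ x : ℕ, 1 ≤ x → x ≤ X → (x.divisors.card : ℝ) ≤ T) :
    (SS ξ c ε s M d g R : ℝ) ≤ T *
      (((Icc 1 X).filter (fun x : ℕ => nd ((x : ℝ) * (s * ξ)) ≤ eb c ε d g R)).card : ℝ) := by
  set F := (Icc 1 X).filter (fun x : ℕ => nd ((x : ℝ) * (s * ξ)) ≤ eb c ε d g R) with hF
  have h1 : SS ξ c ε s M d g R ≤ ⌊T⌋₊ * F.card := by
    unfold SS
    refine Finset.card_le_mul_card_image_of_maps_to (f := fun p : ℕ × ℕ => p.1 * p.2) ?_ _ ?_
    · rintro ⟨a, q⟩ hp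
      simp only [mem_filter, mem_product, mem_Icc] at hp
      obtain ⟨⟨⟨ha1, haM⟩, hq1, hq2⟩, hR1, hR2, hnd⟩ := hp
      rw [hF]
      simp only [mem_filter, mem_Icc]
      refine ⟨⟨?_, ?_⟩, ?_⟩
      · exact Nat.mul_pos ha1 hq1
      · rw [hX, Nat.le_div_iff_mul_le (by omega)]
        calc a * q * g = a * (g * q) := by ring
          _ ≤ M * (2 * R) := Nat.mul_le_mul haM (by omega)
          _ = 2 * M * R := by ring
      · have : ((a * q : ℕ) : ℝ) * (s * ξ) = (s : ℝ) * a * q * ξ := by push_cast; ring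
        rw [this]; exact hnd
    · intro x hx
      have hx' : 1 ≤ x ∧ x ≤ X := mem_Icc.mp (mem_filter.mp hx).1
      refine le_trans (Finset.card_le_card_of_injOn (t := x.divisors) (fun p : ℕ × ℕ => p.1) ?_ ?_) ?_
      · rintro ⟨a, q⟩ hp
        simp only [coe_filter, Set.mem_setOf_eq, mem_filter, mem_product, mem_Icc] at hp
        simp only [mem_coe, Nat.mem_divisors]
        exact ⟨⟨q, hp.2.symm⟩, by omega⟩
      · rintro ⟨a, q⟩ hp ⟨a', q'⟩ hp' h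
        simp only [coe_filter, Set.mem_setOf_eq, mem_filter, mem_product, mem_Icc] at hp hp'
        simp only at h
        subst h
        have h2 : a * q = a * q' := by rw [hp.2, hp'.2]
        have h3 : q = q' := Nat.eq_of_mul_eq_mul_left (by omega) h2
        rw [h3]
      · exact Nat.le_floor (hτ x hx'.1 hx'.2)
  calc (SS ξ c ε s M d g R : ℝ) ≤ ((⌊T⌋₊ * F.card : ℕ) : ℝ) := by exact_mod_cast h1
    _ = (⌊T⌋₊ : ℝ) * F.card := by push_cast; ring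
    _ ≤ T * F.card := by gcongr; exact Nat.floor_le hT

theorem mdBLB : LatStmt → BlbStmt := by
  intro hLat ξ hξ ε κ A c α hε hκ hκA hc hα0 hα1
  have hA : 0 < A := lt_of_lt_of_le hκ hκA
  obtain ⟨k, hk⟩ : ∃ k : ℝ, k = min κ (1 - α) / 40 := ⟨_, rfl⟩
  have hk0 : 0 < k := by
    rw [hk]; have : 0 < min κ (1 - α) := lt_min hκ (by linarith)
    positivity
  have hkα : 40 * k ≤ 1 - α := by
    rw [hk]; have := min_le_right κ (1 - α); linarith
  obtain ⟨δ, hδ⟩ : ∃ δ : ℝ, δ = k / (2 + A) := ⟨_, rfl⟩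
  have hδ0 : 0 < δ := by rw [hδ]; positivity
  have hδA : (2 + A) * δ = k := by rw [hδ]; field_simp
  obtain ⟨δ1, hδ1⟩ : ∃ δ1 : ℝ, δ1 = k / (8 * (1 + A)) := ⟨_, rfl⟩
  have hδ10 : 0 < δ1 := by rw [hδ1]; positivity
  have hδ1A : (1 + A) * δ1 = k / 8 := by rw [hδ1]; field_simp
  obtain ⟨C, hC, hlat⟩ := hLat ξ hξ δ hδ0
  obtain ⟨C1, hC1, hdiv⟩ := Pool.Agent.Helper92.Field.divisor_bound hδ10
  obtain ⟨D, hD⟩ : ∃ D : ℝ, D = C1 * 2 ^ δ1 * (C * (2 * c + (2 * c * 2 ^ δ) ^ ((1 : ℝ) / 2))) :=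
    ⟨_, rfl⟩
  have e1 : ∀ᶠ n : ℕ in Filter.atTop, D ≤ (n : ℝ) ^ (3 * k / 8) :=
    ((tendsto_rpow_atTop (by positivity)).comp tendsto_natCast_atTop_atTop).eventually_ge_atTop D
  have e2 : ∀ᶠ n : ℕ in Filter.atTop, (3 : ℝ) ≤ (n : ℝ) ^ κ :=
    ((tendsto_rpow_atTop hκ).comp tendsto_natCast_atTop_atTop).eventually_ge_atTop 3
  obtain ⟨N0, hN0⟩ := Filter.eventually_atTop.mp ((e1.and e2).and (Filter.eventually_ge_atTop 1))
  refine ⟨N0, ?_⟩
  intro M d s g R hK hs hsK hgd hgK hRK hRA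
  obtain ⟨⟨hKD, hK3⟩, hK1⟩ := hN0 _ hK
  have hM1 : 1 ≤ M := Nat.pos_of_ne_zero (by rintro rfl; simp at hK1)
  have hd1 : 1 ≤ d := Nat.pos_of_ne_zero (by rintro rfl; simp at hK1)
  have hg1 : 1 ≤ g := Nat.pos_of_dvd_of_pos hgd hd1
  obtain ⟨K, hKdef⟩ : ∃ K : ℝ, K = ((M * d : ℕ) : ℝ) := ⟨_, rfl⟩
  rw [← hKdef] at hKD hK3 hsK hgK hRK hRA ⊢
  rw [← hk] at hgK
  have hKR1 : (1 : ℝ) ≤ K := by rw [hKdef]; exact_mod_cast hK1
  have hKR0 : (0 : ℝ) < K := by linarith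
  have hKMd : K = (M : ℝ) * d := by rw [hKdef]; push_cast; ring
  have hd1R : (1 : ℝ) ≤ d := by exact_mod_cast hd1
  have hM1R : (1 : ℝ) ≤ M := by exact_mod_cast hM1
  have hg1R : (1 : ℝ) ≤ g := by exact_mod_cast hg1
  have hs1R : (1 : ℝ) ≤ s := by exact_mod_cast hs
  have hMK : (M : ℝ) ≤ K := by rw [hKMd]; nlinarith
  have hR3 : (3 : ℝ) ≤ R := le_trans hK3 hRK
  have hR0 : (0 : ℝ) < R := by linarith
  have hlogR : 1 ≤ Real.log R := by
    rw [Real.le_log_iff_exp_le hR0]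
    have := Real.exp_one_lt_d9
    linarith
  have hL1 : 1 ≤ LL ε R := by
    unfold LL
    exact Real.one_le_rpow hlogR (by linarith)
  have hdg : ((d / g : ℕ) : ℝ) = d / g := Nat.cast_div hgd (by positivity)
  have heb : eb c ε d g R = c * (d / g) / (R * LL ε R) := by unfold eb; rw [hdg]
  have heb0 : 0 < eb c ε d g R := by rw [heb]; positivity
  obtain ⟨X, hX⟩ : ∃ X : ℕ, X = 2 * M * R / g := ⟨_, rfl⟩
  have hXle : (X : ℝ) ≤ 2 * M * R / g := by
    rw [hX]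
    have := @Nat.cast_div_le ℝ _ _ _ (2 * M * R) g
    push_cast at this
    exact this
  have hX2 : (X : ℝ) ≤ 2 * K ^ (1 + A) := by
    rw [Real.rpow_add hKR0, Real.rpow_one]
    calc (X : ℝ) ≤ 2 * M * R / g := hXle
      _ ≤ 2 * M * R / 1 := by gcongr
      _ = 2 * (M * R) := by ring
      _ ≤ 2 * (K * K ^ A) := by gcongr
  obtain ⟨E, hE⟩ : ∃ E : ℝ, E = 2 * c * K / (g : ℝ) ^ 2 := ⟨_, rfl⟩
  have hE0 : 0 < E := by rw [hE]; positivity
  have hebX : eb c ε d g R * X ≤ E := by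
    calc eb c ε d g R * X ≤ (c * (d / g) / (R * LL ε R)) * (2 * M * R / g) := by
          rw [heb]; gcongr
      _ = (2 * c * (M * d) / (g : ℝ) ^ 2) / LL ε R := by field_simp
      _ ≤ (2 * c * (M * d) / (g : ℝ) ^ 2) / 1 := by gcongr
      _ = E := by rw [hE, hKMd, div_one]
  obtain ⟨G, hG⟩ : ∃ G : ℝ, G = K ^ (α * (1 + δ)) * (2 * K ^ (1 + A)) ^ δ := ⟨_, rfl⟩
  have hG0 : 0 < G := by rw [hG]; positivity
  have hN : (((Icc 1 X).filter (fun x : ℕ => nd ((x : ℝ) * (s * ξ)) ≤ eb c ε d g R)).card : ℝ)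
      ≤ C * (E + (E * G) ^ ((1 : ℝ) / 2)) := by
    rcases Nat.eq_zero_or_pos X with h0 | hXpos
    · rw [h0]
      simp only [Icc_eq_empty_of_lt (Nat.zero_lt_one), filter_empty, card_empty, Nat.cast_zero]
      positivity
    · refine le_trans (hlat s X _ hs hXpos heb0) ?_
      have hX0 : (0 : ℝ) < X := by exact_mod_cast hXpos
      have h3 : eb c ε d g R * ((s : ℝ) * X) ^ (1 + δ) ≤ E * G := by
        rw [Real.mul_rpow (by positivity) (by positivity), Real.rpow_add hX0, Real.rpow_one]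
        calc eb c ε d g R * ((s : ℝ) ^ (1 + δ) * (X * (X : ℝ) ^ δ))
            = (eb c ε d g R * X) * ((s : ℝ) ^ (1 + δ) * (X : ℝ) ^ δ) := by ring
          _ ≤ E * ((K ^ α) ^ (1 + δ) * (2 * K ^ (1 + A)) ^ δ) := by gcongr
          _ = E * G := by rw [hG, ← Real.rpow_mul hKR0.le]
      gcongr
  have hgE : (g : ℝ) * E ≤ 2 * c * K ^ (1 - k) := by
    have : (g : ℝ) * E = 2 * c * (K / g) := by rw [hE]; field_simp
    rw [this, Real.rpow_sub hKR0, Real.rpow_one]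
    gcongr
  have hgEG : (g : ℝ) * (E * G) ^ ((1 : ℝ) / 2) ≤ (2 * c * 2 ^ δ) ^ ((1 : ℝ) / 2) * K ^ (1 - k) := by
    have h1 : (g : ℝ) = ((g : ℝ) ^ 2) ^ ((1 : ℝ) / 2) := by
      rw [← Real.sqrt_eq_rpow, Real.sqrt_sq (by positivity)]
    have h2 : K ^ (1 - k) = (K ^ (2 * (1 - k))) ^ ((1 : ℝ) / 2) := by
      rw [← Real.rpow_mul hKR0.le]; congr 1; ring
    rw [h2, ← Real.mul_rpow (by positivity) (by positivity)]
    conv_lhs => rw [h1]
    rw [← Real.mul_rpow (by positivity) (by positivity)]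
    refine Real.rpow_le_rpow (by positivity) ?_ (by norm_num)
    have h4 : (g : ℝ) ^ 2 * (E * G) = 2 * c * K * G := by rw [hE]; field_simp
    rw [h4, hG, Real.mul_rpow (by norm_num) (by positivity), ← Real.rpow_mul hKR0.le]
    have h5 : 2 * c * K * (K ^ (α * (1 + δ)) * ((2 : ℝ) ^ δ * K ^ ((1 + A) * δ)))
        = 2 * c * 2 ^ δ * K ^ (1 + α * (1 + δ) + (1 + A) * δ) := by
      rw [Real.rpow_add hKR0, Real.rpow_add hKR0, Real.rpow_one]; ring
    rw [h5]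
    refine mul_le_mul_of_nonneg_left ?_ (by positivity)
    refine Real.rpow_le_rpow_of_exponent_le hKR1 ?_
    nlinarith
  obtain ⟨T, hT⟩ : ∃ T : ℝ, T = C1 * 2 ^ δ1 * K ^ (k / 8) := ⟨_, rfl⟩
  have hT0 : 0 ≤ T := by rw [hT]; positivity
  have hτ : ∀ x : ℕ, 1 ≤ x → x ≤ X → (x.divisors.card : ℝ) ≤ T := by
    intro x hx1 hxX
    refine le_trans (hdiv x (by omega)) ?_
    have hxX' : (x : ℝ) ≤ 2 * K ^ (1 + A) := le_trans (by exact_mod_cast hxX) hX2
    calc C1 * (x : ℝ) ^ δ1 ≤ C1 * (2 * K ^ (1 + A)) ^ δ1 := by gcongr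
      _ = T := by
        rw [Real.mul_rpow (by norm_num) (by positivity), ← Real.rpow_mul hKR0.le, hδ1A, hT]; ring
  have hSS := ss_le ξ c ε s M d g R X T hT0 hg1 hX hτ
  calc (g : ℝ) * SS ξ c ε s M d g R
      ≤ g * (T * (C * (E + (E * G) ^ ((1 : ℝ) / 2)))) := by
        refine mul_le_mul_of_nonneg_left (le_trans hSS ?_) (by positivity)
        exact mul_le_mul_of_nonneg_left hN hT0
    _ = T * (C * (g * E + g * (E * G) ^ ((1 : ℝ) / 2))) := by ring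
    _ ≤ T * (C * (2 * c * K ^ (1 - k) + (2 * c * 2 ^ δ) ^ ((1 : ℝ) / 2) * K ^ (1 - k))) := by
        gcongr
    _ = D * (K ^ (k / 8) * K ^ (1 - k)) := by rw [hT, hD]; ring
    _ ≤ K ^ (3 * k / 8) * (K ^ (k / 8) * K ^ (1 - k)) := by gcongr
    _ = K ^ (1 - min κ (1 - α) / 80) := by
        rw [← Real.rpow_add hKR0, ← Real.rpow_add hKR0]
        congr 1
        have : min κ (1 - α) / 80 = k / 2 := by rw [hk]; ring
        rw [this]; ring

end Pool.Agent.Helper44.MD
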